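import Pool.Agent.Y8.Stm6
import Pool.Agent.Y458.NS.CR

/-!
The criterion for singular points without pressure (helper574, job 356 of helper8); the proof of
`Pool.Agent.Y660.NS.t_CRIT2` with the dissipation in place of `FF`.
-/

set_option autoImplicit false

open MeasureTheory Set Metric
open scoped ContDiff

namespace Pool.Agent.Y574.NS

open H459R3.NS W221.NS Pool.Agent.Y8 Pool.Agent.Y458.NS

lemma B2_frv8 {u : ℝ → V → V} {r s t : ℝ} {X : ℝ → V} (hr : 0 < r)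
    (hv : ContDiff ℝ ∞ (u (s + r ^ 2 * t))) :
    B2 0 8 (frv r s X u t) = r * B2 (X (s + r ^ 2 * t)) (8 * r) (u (s + r ^ 2 * t)) := by
  unfold B2
  have h : ∀ z, gsq (frv r s X u t) z
      = r ^ 4 * gsq (u (s + r ^ 2 * t)) (X (s + r ^ 2 * t) + r • z) := fun z =>
    Pool.Agent.W135.MD.gsq_scale (u := u (s + r ^ 2 * t)) (v := frv r s X u t)
      (x := X (s + r ^ 2 * t)) (c := fun i => deriv (fun τ => X τ i) (s + r ^ 2 * t)) hv
      (fun _ _ => rfl) z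
  simp_rw [h]
  rw [integral_const_mul, Pool.Agent.W135.MD.int_ball_scale _ _ hr, mul_comm r 8]
  field_simp

lemma A2_mono {w : V → V} (hw : ContDiff ℝ ∞ w) : A2 0 4 w ≤ A2 0 8 w := by
  unfold A2
  refine setIntegral_mono_set (ballint (nsq_sm hw).continuous _ _) (ae_of_all _ fun z => nsq_nn _ _)
    (HasSubset.Subset.eventuallyLE (ball_subset_ball (by norm_num)))

theorem t_CRIT3 (hF : S_WFR2) (hL : S_WLOCAL) : S_CRIT3 := by
  obtain ⟨ε₁, C₁, hε₁, hC₁, hloc⟩ := hL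
  refine ⟨ε₁, hε₁, ?_⟩
  intro T E D G u p h r s hr hr1 hs0 hsT X Y B C hX t₀ ht₀ x₀ hx₀ hsing
  by_contra hlt
  rw [not_le] at hlt
  have hr2 : 0 < r ^ 2 := by positivity
  obtain ⟨H, hH⟩ : ∃ H : Set ℝ, H = {t | t ∈ Ioo (-1 : ℝ) 0 ∧ s + r ^ 2 * t ∈ G} := ⟨_, rfl⟩
  obtain ⟨k, hwl⟩ : ∃ k, WL2 H (frv r s X u) (frq r s X p) k := by
    rw [hH]
    exact hF T E D G u p h r s hr hs0 hsT X Y B C hX
  have hXc : ContinuousOn X G := hX.sm.continuousOn
  -- integrability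
  obtain ⟨F, hFd⟩ : ∃ F : ℝ → ℝ, F = G.indicator (fun τ => B2 (X τ) (8 * r) (u τ)) := ⟨_, rfl⟩
  have hFi : Integrable F := by
    rw [hFd]
    exact (integrable_indicator_iff h.openG.measurableSet).2 (B2_mov_int h hXc _)
  have hFi2 : Integrable (fun t => r * F (s + r ^ 2 * t)) :=
    ((hFi.comp_add_left s).comp_mul_left' hr2.ne').const_mul r
  have haeH : ∀ᵐ t ∂(volume.restrict (Ioo (-1 : ℝ) 0)), t ∈ H := by
    rw [ae_restrict_iff' measurableSet_Ioo]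
    have h1 : ∀ᵐ t : ℝ, t ∉ Ioo (-1 : ℝ) 0 \ H := measure_eq_zero_iff_ae_notMem.1 hwl.fullH
    filter_upwards [h1] with t ht htJ
    by_contra hc
    exact ht ⟨htJ, hc⟩
  have hae1 : (fun t => r * F (s + r ^ 2 * t)) =ᵐ[volume.restrict (Ioo (-1 : ℝ) 0)]
      (fun t => B2 0 8 (frv r s X u t)) := by
    filter_upwards [haeH] with t ht
    rw [hH] at ht
    rw [hFd, indicator_of_mem ht.2, B2_frv8 hr (sl_sm h.smooth_u ht.2)]
  have hae2 : (fun t => B2 0 8 (frv r s X u t)) =ᵐ[volume.restrict (Ioo (-1 : ℝ) 0)]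
      (fun t => r * B2 (X (s + r ^ 2 * t)) (8 * r) (u (s + r ^ 2 * t))) := by
    filter_upwards [haeH] with t ht
    rw [hH] at ht
    exact B2_frv8 hr (sl_sm h.smooth_u ht.2)
  have hΓi : IntegrableOn (fun t => B2 0 8 (frv r s X u t)) (Ioo (-1) 0) :=
    (hFi2.integrableOn (s := Ioo (-1 : ℝ) 0)).congr hae1
  have hΓe : ∫ t in Ioo (-1 : ℝ) 0, B2 0 8 (frv r s X u t) ≤ ε₁ := by
    rw [integral_congr_ae hae2, integral_const_mul]
    have e1 : ∫ t in Ioo (-1 : ℝ) 0, B2 (X (s + r ^ 2 * t)) (8 * r) (u (s + r ^ 2 * t)) =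
        (r ^ 2)⁻¹ * ∫ t in Ioo (s - r ^ 2) s, B2 (X t) (8 * r) (u t) := by
      rw [← integral_Ioc_eq_integral_Ioo, ← integral_Ioc_eq_integral_Ioo,
        ← intervalIntegral.integral_of_le (by norm_num), ← intervalIntegral.integral_of_le
        (by linarith), intervalIntegral.integral_comp_add_mul
          (f := fun t => B2 (X t) (8 * r) (u t)) (c := r ^ 2) (by positivity) s, smul_eq_mul]
      congr 2
      · ring
      · ring
    rw [e1]
    have e2 : r * ((r ^ 2)⁻¹ * ∫ t in Ioo (s - r ^ 2) s, B2 (X t) (8 * r) (u t)) =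
        (∫ t in Ioo (s - r ^ 2) s, B2 (X t) (8 * r) (u t)) / r := by
      field_simp
    rw [e2, div_le_iff₀ hr]
    exact hlt.le
  have hbd0 := hloc H (frv r s X u) (frq r s X p) k hwl hΓi hΓe
  obtain ⟨A, hA⟩ := hwl.bdd
  obtain ⟨C₂, hC₂⟩ : ∃ C₂, C₂ = C₁ * (1 + √A) := ⟨_, rfl⟩
  have hC₂0 : 0 ≤ C₂ := by rw [hC₂]; positivity
  have hbd : ∀ t ∈ H, -1 / 16 < t → ∀ z ∈ ball (0 : V) (1 / 4), ∀ i,
      |frv r s X u t z i| ≤ C₂ := by
    intro t ht ht1 z hz i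
    refine (hbd0 t ht ht1 z hz i).trans ?_
    rw [hC₂]
    refine mul_le_mul_of_nonneg_left ?_ hC₁.le
    have h1 : A2 0 4 (frv r s X u t) ≤ A :=
      (A2_mono (sl_sm hwl.smooth_v ht)).trans (hA t ht)
    have h2 := Real.sqrt_le_sqrt h1
    linarith
  -- the velocity is bounded
  have hvel : ∀ τ ∈ G, s - r ^ 2 / 16 < τ → τ < s → ∀ z ∈ ball (0 : V) (1 / 4), ∀ i,
      |u τ (X τ + r • z) i| ≤ C₂ / r + B := by
    intro τ hτ h1 h2 z hz i
    obtain ⟨t, ht⟩ : ∃ t, t = (τ - s) / r ^ 2 := ⟨_, rfl⟩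
    have htτ : s + r ^ 2 * t = τ := by
      rw [ht]
      field_simp
      ring
    have ht1 : -1 / 16 < t := by
      rw [ht, lt_div_iff₀ hr2]
      linarith
    have ht2 : t < 0 := by
      rw [ht]
      exact div_neg_of_neg_of_pos (by linarith) hr2
    have htH : t ∈ H := by
      rw [hH]
      exact ⟨⟨by linarith, ht2⟩, by rw [htτ]; exact hτ⟩
    have h3 := hbd t htH ht1 z hz i
    have h4 : frv r s X u t z i = r * (u τ (X τ + r • z) i - deriv (fun τ => X τ i) τ) := by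
      unfold frv
      rw [htτ]
    have h5 : deriv (fun τ => X τ i) τ = Y τ i :=
      (hasDerivAt_pi.1 (hX.hd τ (h.subG hτ)) i).deriv
    rw [h4, h5, abs_mul, abs_of_pos hr] at h3
    have h6 : |u τ (X τ + r • z) i - Y τ i| ≤ C₂ / r := by
      rw [le_div_iff₀ hr, mul_comm]
      exact h3
    have h7 : |Y τ i| ≤ B := (norm_le_pi_norm (Y τ) i).trans (hX.bd τ (h.subG hτ))
    have h8 : u τ (X τ + r • z) i = (u τ (X τ + r • z) i - Y τ i) + Y τ i := by ring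
    rw [h8]
    exact (abs_add_le _ _).trans (add_le_add h6 h7)
  -- the contradiction
  have ht₀T : t₀ ∈ Ioo 0 T := ⟨by nlinarith [ht₀.1], ht₀.2.trans hsT⟩
  have hXc0 : ContinuousAt X t₀ := (hX.hd t₀ ht₀T).continuousAt
  obtain ⟨d, hd⟩ : ∃ d : ℝ, d = (r / 4 - dist x₀ (X t₀)) / 2 := ⟨_, rfl⟩
  have hd0 : 0 < d := by
    rw [hd]
    have := mem_ball.1 hx₀
    linarith
  obtain ⟨δ₁, hδ₁, hXδ⟩ := Metric.continuousAt_iff.1 hXc0 d hd0
  have hB0 : 0 ≤ B := (norm_nonneg _).trans (hX.bd t₀ ht₀T)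
  obtain ⟨δ, hδ⟩ : ∃ δ, δ = min (min δ₁ d) (min (t₀ - (s - r ^ 2 / 16)) (s - t₀)) :=
    ⟨_, rfl⟩
  have hδ0 : 0 < δ := by
    rw [hδ]
    refine lt_min (lt_min hδ₁ hd0) (lt_min ?_ ?_)
    · linarith [ht₀.1]
    · linarith [ht₀.2]
  have d1 : δ ≤ δ₁ := by rw [hδ]; exact (min_le_left _ _).trans (min_le_left _ _)
  have d2 : δ ≤ d := by rw [hδ]; exact (min_le_left _ _).trans (min_le_right _ _)
  have d3 : δ ≤ t₀ - (s - r ^ 2 / 16) := by
    rw [hδ]; exact (min_le_right _ _).trans (min_le_left _ _)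
  have d4 : δ ≤ s - t₀ := by rw [hδ]; exact (min_le_right _ _).trans (min_le_right _ _)
  obtain ⟨τ, hτ, hτδ, y, hy, hyB⟩ := hsing δ hδ0 (C₂ / r + B)
  rw [abs_lt] at hτδ
  have h1 : s - r ^ 2 / 16 < τ := by linarith
  have h2 : τ < s := by linarith
  have h3 : dist (X τ) (X t₀) < d := by
    apply hXδ
    rw [Real.dist_eq, abs_lt]
    constructor <;> linarith
  obtain ⟨z, hz⟩ : ∃ z : V, z = r⁻¹ • (y - X τ) := ⟨_, rfl⟩
  have hzy : X τ + r • z = y := by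
    rw [hz, smul_smul, mul_inv_cancel₀ hr.ne', one_smul]
    abel
  have hzb : z ∈ ball (0 : V) (1 / 4) := by
    rw [mem_ball, dist_zero_right, hz, norm_smul, Real.norm_eq_abs, abs_of_pos (inv_pos.2 hr),
      inv_mul_lt_iff₀ hr]
    have h4 : ‖y - X τ‖ ≤ dist y (X t₀) + dist (X τ) (X t₀) := by
      rw [← dist_eq_norm]
      exact dist_triangle_right y (X τ) (X t₀)
    have h5 := mem_ball.1 hy
    have h6 := dist_triangle y x₀ (X t₀)
    linarith
  have h6 : ‖u τ y‖ ≤ C₂ / r + B := by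
    rw [pi_norm_le_iff_of_nonneg (by positivity)]
    intro i
    have h7 := hvel τ hτ h1 h2 z hzb i
    rw [hzy] at h7
    exact h7
  linarith

end Pool.Agent.Y574.NS
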