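import Pool.Agent.Y8.Stm6
import Pool.Agent.Y590.NS.WMark

/-!
Markov's inequality in the space of labels, local version (helper574, job 357 of helper8).
-/

set_option autoImplicit false

open MeasureTheory Set Metric
open scoped ContDiff ENNReal

namespace Pool.Agent.Y574.NS

open H459R3.NS W221.NS Pool.Agent.Y8 Pool.Agent.Y590.NS

lemma B2_ball8 : ∃ C : ℝ, 0 < C ∧ ∀ w : V → V, SPV w → ∀ (R ρ : ℝ), 0 ≤ R → 0 < ρ → ρ ≤ 8 →
    ∫⁻ x in ball (0 : V) R, ENNReal.ofReal (B2 x ρ w) ≤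
      ENNReal.ofReal ((2 * ρ) ^ 3) * ENNReal.ofReal (C * (R + 1) ^ 3 * enstrophy w) := by
  obtain ⟨C, hC, h⟩ := per_ball
  refine ⟨729 * C, by positivity, fun w hw R ρ hR hρ hρ1 => ?_⟩
  have hc := (gsq_sm hw.1).continuous
  have hfm : Measurable fun z => ENNReal.ofReal (gsq w z) := hc.measurable.ennreal_ofReal
  have h1 := swap_ball (A := ball (0 : V) R) (B := ball (0 : V) (R + 8)) measurableSet_ball
    measurableSet_ball ρ (fun y hy => by
      refine ball_subset_ball' ?_
      rw [mem_ball] at hy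
      linarith) (g := fun q => ENNReal.ofReal (gsq w q.2)) (hfm.comp measurable_snd)
  simp only at h1
  simp_rw [setLIntegral_const, vol_ball _ hρ] at h1
  rw [lintegral_mul_const _ hfm] at h1
  have e : ∀ x, ENNReal.ofReal (B2 x ρ w) = ∫⁻ z in ball x ρ, ENNReal.ofReal (gsq w z) := by
    intro x
    unfold B2
    rw [ofReal_integral_eq_lintegral_ofReal (ballint hc _ _) (ae_of_all _ fun z => gsq_nn w z)]
  simp_rw [e]
  refine h1.trans ?_
  rw [mul_comm]
  refine mul_le_mul_right ?_ _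
  refine (h _ hc (gsq_per hw.2) (gsq_nn w) (R + 8) (by linarith)).trans ?_
  rw [← enst_eq hw.1]
  refine ENNReal.ofReal_le_ofReal ?_
  refine mul_le_mul_of_nonneg_right ?_ (enst_nn w)
  have : (R + 8 + 1) ^ 3 ≤ 729 * (R + 1) ^ 3 := by
    have h2 : R + 8 + 1 ≤ 9 * (R + 1) := by linarith
    calc (R + 8 + 1) ^ 3 ≤ (9 * (R + 1)) ^ 3 := pow_le_pow_left₀ (by linarith) h2 3
      _ = _ := by ring
  nlinarith

theorem t_WMARK3 : S_WMARK3 := by
  obtain ⟨C, hC, hFF⟩ := B2_ball8
  refine ⟨4096 * C, by positivity, ?_⟩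
  intro T E D G u p h r s t₀ hr0 hr1 hs hsT ht₀ X Y B C' hB hW R ε hR hε
  have hr2 : 0 < r ^ 2 := by positivity
  have hsub : Ioo (s - r ^ 2) s ⊆ Ioo 0 T := fun t ht => ⟨by linarith [ht.1], by linarith [ht.2]⟩
  have ht₀T : t₀ ∈ Ioo 0 T := ⟨by linarith [ht₀.1], by linarith [ht₀.2]⟩
  -- displacement
  have hdisp : ∀ t ∈ Ioo (s - r ^ 2) s, ∀ y ∈ ball (0 : V) R, X t y ∈ ball (0 : V) (R + B * r ^ 2) := by
    intro t ht y hy
    have h1 := Convex.norm_image_sub_le_of_norm_hasDerivWithin_le (f := fun t => X t y)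
      (f' := fun t => Y t y) (s := Ioo 0 T) (C := B)
      (fun τ hτ => ((hW.path y).hd τ hτ).hasDerivWithinAt) (fun τ hτ => (hW.path y).bd τ hτ)
      (convex_Ioo 0 T) ht₀T (hsub ht)
    simp only [hW.lab y] at h1
    have h2 : ‖t - t₀‖ ≤ r ^ 2 := by
      rw [Real.norm_eq_abs, abs_le]
      constructor
      · linarith [ht.1, ht₀.2]
      · linarith [ht.2, ht₀.1]
    rw [mem_ball, dist_zero_right] at hy ⊢
    have h3 : ‖X t y‖ ≤ ‖X t y - y‖ + ‖y‖ := by
      have := norm_add_le (X t y - y) y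
      simpa using this
    have h4 : B * ‖t - t₀‖ ≤ B * r ^ 2 := mul_le_mul_of_nonneg_left h2 hB
    linarith
  obtain ⟨R', hR'⟩ : ∃ R', R' = R + B * r ^ 2 := ⟨_, rfl⟩
  have hR'0 : 0 ≤ R' := by rw [hR']; positivity
  rw [← hR'] at hdisp ⊢
  have hXc : ContinuousOn (fun z : ℝ × V => X z.1 z.2) (G ×ˢ univ) :=
    hW.cont.mono (prod_mono h.subG subset_rfl)
  obtain ⟨g, hg⟩ : ∃ g : ℝ × V → ℝ≥0∞, g = fun q : ℝ × V =>
      G.indicator (fun t => ENNReal.ofReal (B2 (X t q.2) (8 * r) (u t))) q.1 := ⟨_, rfl⟩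
  have hgm : Measurable g := by
    rw [hg]
    exact meas_B2 h.openG h.smooth_u hXc (8 * r)
  obtain ⟨Ψ, hΨ⟩ : ∃ Ψ : V → ℝ≥0∞, Ψ = fun y => ∫⁻ t in Ioo (s - r ^ 2) s, g (t, y) := ⟨_, rfl⟩
  have hΨm : Measurable Ψ := by
    rw [hΨ]
    exact hgm.lintegral_prod_left'
  have haeG : ∀ᵐ τ ∂(volume.restrict (Ioo (s - r ^ 2) s)), τ ∈ G :=
    aeT h (by linarith) hsT.le
  have hB2nn : ∀ (a : V) (ρ : ℝ) (w : V → V), 0 ≤ B2 a ρ w := fun a ρ w =>
    integral_nonneg fun z => gsq_nn w z
  -- inclusion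
  have hincl : {y ∈ ball (0 : V) R | ε * r ≤ ∫ t in Ioo (s - r ^ 2) s,
      B2 (X t y) (8 * r) (u t)} ⊆
      {y | ENNReal.ofReal (ε * r) ≤ Ψ y} ∩ ball (0 : V) R := by
    rintro y ⟨hy, hye⟩
    refine ⟨?_, hy⟩
    have hint : IntegrableOn (fun t => B2 (X t y) (8 * r) (u t)) (Ioo (s - r ^ 2) s) := by
      by_contra hc
      rw [integral_undef hc] at hye
      have : 0 < ε * r := by positivity
      linarith
    show ENNReal.ofReal (ε * r) ≤ Ψ y
    calc ENNReal.ofReal (ε * r) ≤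
          ENNReal.ofReal (∫ t in Ioo (s - r ^ 2) s, B2 (X t y) (8 * r) (u t)) :=
          ENNReal.ofReal_le_ofReal hye
      _ = ∫⁻ t in Ioo (s - r ^ 2) s, ENNReal.ofReal (B2 (X t y) (8 * r) (u t)) :=
          ofReal_integral_eq_lintegral_ofReal hint
            (ae_of_all _ fun t => hB2nn _ _ _)
      _ = Ψ y := by
          rw [hΨ]
          refine lintegral_congr_ae ?_
          filter_upwards [haeG] with t ht
          rw [hg]
          simp only [indicator_of_mem ht]
  -- Markov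
  have hmk : ENNReal.ofReal (ε * r) * (volume.restrict (ball (0 : V) R))
      {y | ENNReal.ofReal (ε * r) ≤ Ψ y} ≤ ∫⁻ y in ball (0 : V) R, Ψ y :=
    mul_meas_ge_le_lintegral hΨm _
  rw [Measure.restrict_apply' measurableSet_ball] at hmk
  -- Tonelli
  have hton : ∫⁻ y in ball (0 : V) R, Ψ y =
      ∫⁻ t in Ioo (s - r ^ 2) s, ∫⁻ y in ball (0 : V) R, g (t, y) := by
    rw [hΨ]
    exact lintegral_lintegral_swap (f := fun y t => g (t, y))
      (hgm.comp measurable_swap).aemeasurable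
  obtain ⟨K, hK⟩ : ∃ K : ℝ, K = (2 * (8 * r)) ^ 3 * (C * (R' + 1) ^ 3) := ⟨_, rfl⟩
  have hK0 : 0 ≤ K := by rw [hK]; positivity
  have hslice : ∀ t ∈ Ioo (s - r ^ 2) s, ∫⁻ y in ball (0 : V) R, g (t, y) ≤
      ENNReal.ofReal (K * enstrophy (u t)) := by
    intro t ht
    by_cases htG : t ∈ G
    · have e : ∀ y, g (t, y) = ENNReal.ofReal (B2 (X t y) (8 * r) (u t)) := by
        intro y
        rw [hg]
        simp only [indicator_of_mem htG]
      simp_rw [e]
      have hXm : Measurable (X t) := (sl_ct hXc htG).measurable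
      have hFm : Measurable fun x => ENNReal.ofReal (B2 x (8 * r) (u t)) :=
        meas_B2' (h.spv htG).1 (8 * r)
      calc ∫⁻ y in ball (0 : V) R, ENNReal.ofReal (B2 (X t y) (8 * r) (u t))
          ≤ ∫⁻ y, (ball (0 : V) R').indicator
              (fun x => ENNReal.ofReal (B2 x (8 * r) (u t))) (X t y) := by
            rw [← lintegral_indicator measurableSet_ball]
            refine lintegral_mono fun y => ?_
            by_cases hy : y ∈ ball (0 : V) R
            · rw [indicator_of_mem hy, indicator_of_mem (hdisp t ht y hy)]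
            · rw [indicator_of_notMem hy]
              exact zero_le
        _ = ∫⁻ x, (ball (0 : V) R').indicator
              (fun x => ENNReal.ofReal (B2 x (8 * r) (u t))) x := by
            conv_rhs => rw [← hW.meas t (hsub ht)]
            rw [lintegral_map (hFm.indicator measurableSet_ball) hXm]
        _ = ∫⁻ x in ball (0 : V) R', ENNReal.ofReal (B2 x (8 * r) (u t)) :=
            lintegral_indicator measurableSet_ball _
        _ ≤ _ := by
            refine (hFF (u t) (h.spv htG) R' (8 * r) hR'0 (by positivity) (by linarith)).trans ?_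
            rw [hK, ← ENNReal.ofReal_mul (by positivity)]
            refine ENNReal.ofReal_le_ofReal (le_of_eq ?_)
            ring
    · have e : ∀ y, g (t, y) = 0 := by
        intro y
        rw [hg]
        simp only [indicator_of_notMem htG]
      simp [e]
  have hen : IntegrableOn (fun t => enstrophy (u t)) (Ioo (s - r ^ 2) s) :=
    (Pool.Agent.Y535.B1.enst_intT h).mono_set hsub
  have hfin : ∫⁻ t in Ioo (s - r ^ 2) s, ∫⁻ y in ball (0 : V) R, g (t, y) ≤
      ENNReal.ofReal (K * ∫ t in Ioo (s - r ^ 2) s, enstrophy (u t)) := by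
    calc _ ≤ ∫⁻ t in Ioo (s - r ^ 2) s, ENNReal.ofReal (K * enstrophy (u t)) :=
          setLIntegral_mono' measurableSet_Ioo hslice
      _ = ENNReal.ofReal (∫ t in Ioo (s - r ^ 2) s, K * enstrophy (u t)) := by
          rw [ofReal_integral_eq_lintegral_ofReal (hen.const_mul K)
            (ae_of_all _ fun t => mul_nonneg hK0 (enst_nn _))]
      _ = _ := by rw [integral_const_mul]
  have hall := hmk.trans (hton.le.trans hfin)
  have hpos : 0 < ε * r := by positivity
  have h8 : ENNReal.ofReal (ε * r) ≠ 0 := by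
    rw [Ne, ENNReal.ofReal_eq_zero, not_le]
    exact hpos
  refine (measure_mono hincl).trans ?_
  have h9 : volume ({y | ENNReal.ofReal (ε * r) ≤ Ψ y} ∩ ball (0 : V) R) ≤
      ENNReal.ofReal (K * ∫ t in Ioo (s - r ^ 2) s, enstrophy (u t)) /
        ENNReal.ofReal (ε * r) := by
    rw [ENNReal.le_div_iff_mul_le (Or.inl h8) (Or.inl ENNReal.ofReal_ne_top), mul_comm]
    exact hall
  refine h9.trans (le_of_eq ?_)
  rw [← ENNReal.ofReal_div_of_pos hpos]
  congr 1
  rw [hK]
  field_simp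
  ring

end Pool.Agent.Y574.NS
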